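import Mathlib

set_option autoImplicit false

namespace Pool.Agent.Results.MP_8f6629_co.AllK

/-- The entry of `σ` at (0-based) position `p` of its one-line form (0 outside the range). -/
def val {n : ℕ} (σ : Equiv.Perm (Fin n)) (p : ℕ) : ℕ :=
  if h : p < n then (σ ⟨p, h⟩ : ℕ) else 0

/-- `σ` contains a `k`-th power: `k` consecutive blocks of a common length `l ≥ 2`, starting at
position `s`, every two of which are order-isomorphic. -/
def HasPow (k : ℕ) {n : ℕ} (σ : Equiv.Perm (Fin n)) : Prop :=
  ∃ s l : ℕ, 2 ≤ l ∧ s + k * l ≤ n ∧ ∀ r < k, ∀ r' < k, ∀ i < l, ∀ j < l,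
    (val σ (s + r * l + i) < val σ (s + r * l + j) ↔
      val σ (s + r' * l + i) < val σ (s + r' * l + j))

/-- `τ` is a right extension of `σ`: its first `n` entries are order-isomorphic to `σ`. -/
def RightExt {n : ℕ} (σ : Equiv.Perm (Fin n)) (τ : Equiv.Perm (Fin (n + 1))) : Prop :=
  ∀ i j : Fin n, (τ i.castSucc < τ j.castSucc ↔ σ i < σ j)

/-- `τ` is a left extension of `σ`: its last `n` entries are order-isomorphic to `σ`. -/
def LeftExt {n : ℕ} (σ : Equiv.Perm (Fin n)) (τ : Equiv.Perm (Fin (n + 1))) : Prop :=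
  ∀ i j : Fin n, (τ i.succ < τ j.succ ↔ σ i < σ j)

/-- `σ` is bicrucial with respect to `k`-th powers. -/
def Bicrucial (k : ℕ) {n : ℕ} (σ : Equiv.Perm (Fin n)) : Prop :=
  ¬ HasPow k σ ∧ (∀ τ, LeftExt σ τ → HasPow k τ) ∧ (∀ τ, RightExt σ τ → HasPow k τ)

/-! ### The Thue-Morse sequence has no cube -/

def tm (n : ℕ) : ℕ := (Nat.digits 2 n).sum % 2

lemma tm_rec (n : ℕ) : tm n = (n % 2 + tm (n / 2)) % 2 := by
  rcases Nat.eq_zero_or_pos n with rfl | h
  · simp [tm]
  · unfold tm
    rw [Nat.digits_def' (by norm_num) h]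
    simp

lemma tm_le (n : ℕ) : tm n ≤ 1 := by unfold tm; omega

lemma tm_even (a : ℕ) : tm (2 * a) = tm a := by
  have h := tm_rec (2 * a)
  have h1 : 2 * a / 2 = a := by omega
  have h2 := tm_le a
  rw [h1] at h; omega

lemma tm_odd (a : ℕ) : tm (2 * a + 1) + tm a = 1 := by
  have h := tm_rec (2 * a + 1)
  have h1 : (2 * a + 1) / 2 = a := by omega
  have h2 := tm_le a
  rw [h1] at h; omega

lemma tm_pair (p : ℕ) (h : p % 2 = 0) : tm p + tm (p + 1) = 1 := by
  obtain ⟨a, rfl⟩ : ∃ a, p = 2 * a := ⟨p / 2, by omega⟩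
  have := tm_even a
  have := tm_odd a
  omega

lemma tm_cube (m : ℕ) : 1 ≤ m → ∀ i, ¬ ∀ p, i ≤ p → p < i + 2 * m → tm p = tm (p + m) := by
  induction m using Nat.strong_induction_on with
  | _ m ih =>
    intro hm i h
    rcases Nat.even_or_odd' m with ⟨u, rfl | rfl⟩
    · refine ih u (by omega) (by omega) ((i + 1) / 2) ?_
      intro p h1 h2
      have h3 := h (2 * p) (by omega) (by omega)
      have h4 : 2 * p + 2 * u = 2 * (p + u) := by ring
      rwa [h4, tm_even, tm_even] at h3
    · have alt : ∀ p, i ≤ p → p + 1 < i + 3 * (2 * u + 1) → tm p + tm (p + 1) = 1 := by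
        intro p h1 h2
        by_cases hp : p % 2 = 0
        · exact tm_pair p hp
        · by_cases h3 : p + 1 < i + 2 * (2 * u + 1)
          · have a1 := h p h1 (by omega)
            have a2 := h (p + 1) (by omega) h3
            have a3 := tm_pair (p + (2 * u + 1)) (by omega)
            have e : p + 1 + (2 * u + 1) = p + (2 * u + 1) + 1 := by ring
            rw [e] at a2
            omega
          · obtain ⟨q, rfl⟩ : ∃ q, p = q + (2 * u + 1) := ⟨p - (2 * u + 1), by omega⟩
            have a1 := h q (by omega) (by omega)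
            have a2 := h (q + 1) (by omega) (by omega)
            have a3 := tm_pair q (by omega)
            have e : q + 1 + (2 * u + 1) = q + (2 * u + 1) + 1 := by ring
            rw [e] at a2
            omega
      have par : ∀ j, j ≤ 2 * u + 1 → tm (i + j) = (tm i + j) % 2 := by
        intro j
        induction j with
        | zero => intro _; have := tm_le i; simp; omega
        | succ j ihj =>
          intro hj
          have b1 := ihj (by omega)
          have b2 := alt (i + j) (by omega) (by omega)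
          have e : i + (j + 1) = i + j + 1 := by ring
          rw [e]; omega
      have c1 := par (2 * u + 1) le_rfl
      have c2 := h i le_rfl (by omega)
      have := tm_le i
      omega

/-- The control sequence. -/
structure Ctl (k T : ℕ) (t : ℕ → ℕ) : Prop where
  le : ∀ i, t i ≤ 1
  left : ∀ i < k, t i = 1
  right : ∀ i, T < i + k → t i = 0
  big : k ≤ T
  pow : ∀ m, 1 ≤ m → ∀ i, 1 ≤ i → i + k * m ≤ T →
    ¬ ∀ p, i ≤ p → p + m < i + k * m → t p = t (p + m)

lemma exists_ctl (k : ℕ) (hk : 3 ≤ k) (N : ℕ) : ∃ T t, N ≤ T ∧ Ctl k T t := by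
  obtain ⟨a, ha, h0⟩ : ∃ a, N ≤ a ∧ tm a = 0 := by
    have h1 := tm_pair (2 * N) (by omega)
    by_cases h : tm (2 * N) = 0
    · exact ⟨2 * N, by omega, h⟩
    · exact ⟨2 * N + 1, by omega, by omega⟩
  obtain ⟨c, rfl⟩ : ∃ c, k = c + 3 := ⟨k - 3, by omega⟩
  have t0 : tm 0 = 0 := by simp [tm]
  have t1 : tm 1 = 1 := by have := tm_odd 0; simp at this; omega
  have t2 : tm 2 = 1 := by have := tm_even 1; simp at this; omega
  have t3 : tm 3 = 0 := by have := tm_odd 1; simp at this; omega
  have u1 : tm (2 * a + 1) = 1 := by have := tm_odd a; omega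
  have u2 : tm (4 * a + 2) = 1 := by
    have := tm_even (2 * a + 1); rwa [show 2 * (2 * a + 1) = 4 * a + 2 by ring, u1] at this
  have u3 : tm (4 * a + 3) = 0 := by
    have := tm_odd (2 * a + 1); rw [show 2 * (2 * a + 1) + 1 = 4 * a + 3 by ring] at this; omega
  have u4 : tm (8 * a + 4) = 1 := by
    have := tm_even (4 * a + 2); rwa [show 2 * (4 * a + 2) = 8 * a + 4 by ring, u2] at this
  have u5 : tm (8 * a + 5) = 0 := by
    have := tm_odd (4 * a + 2); rw [show 2 * (4 * a + 2) + 1 = 8 * a + 5 by ring] at this; omega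
  have u6 : tm (8 * a + 6) = 0 := by
    have := tm_even (4 * a + 3); rwa [show 2 * (4 * a + 3) = 8 * a + 6 by ring, u3] at this
  let t : ℕ → ℕ := fun i => if i ≤ c then 1 else if i ≤ 8 * a + 6 + c then tm (i - c) else 0
  have s1 : ∀ i, i ≤ c → t i = 1 := by intro i h; simp [t, h]
  have s2 : ∀ j, 1 ≤ j → j ≤ 8 * a + 6 → t (j + c) = tm j := by
    intro j h1 h2
    simp only [t]
    rw [if_neg (by omega), if_pos (by omega)]; congr 1; omega
  have s3 : ∀ i, 8 * a + 6 + c < i → t i = 0 := by
    intro i h
    simp only [t]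
    rw [if_neg (by omega), if_neg (by omega)]
  have hl : ∀ i < c + 3, t i = 1 := by
    intro i hi
    by_cases h : i ≤ c
    · exact s1 i h
    · have : i = 1 + c ∨ i = 2 + c := by omega
      rcases this with rfl | rfl
      · rw [s2 1 (by omega) (by omega), t1]
      · rw [s2 2 (by omega) (by omega), t2]
  have hr : ∀ i, 8 * a + 7 + 2 * c < i + (c + 3) → t i = 0 := by
    intro i hi
    by_cases h : 8 * a + 6 + c < i
    · exact s3 i h
    · have : i = 8 * a + 5 + c ∨ i = 8 * a + 6 + c := by omega
      rcases this with rfl | rfl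
      · rw [s2 _ (by omega) (by omega), u5]
      · rw [s2 _ (by omega) (by omega), u6]
  refine ⟨8 * a + 7 + 2 * c, t, by omega, ⟨?_, hl, hr, by omega, ?_⟩⟩
  · intro i
    simp only [t]
    split_ifs
    · exact le_rfl
    · exact tm_le _
    · exact Nat.zero_le _
  · intro m hm i hi hT h
    by_cases hm1 : m = 1
    · subst hm1
      have cst : ∀ j, j < c + 3 → t (i + j) = t i := by
        intro j
        induction j with
        | zero => intro _; rfl
        | succ j ihj =>
          intro hj
          have b1 := ihj (by omega)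
          have b2 := h (i + j) (by omega) (by omega)
          rw [← b1, b2]; rfl
      by_cases c1 : i ≤ c
      · have d1 := cst (3 + c - i) (by omega)
        rw [show i + (3 + c - i) = 3 + c by omega, s2 3 (by omega) (by omega), s1 i c1, t3] at d1
        omega
      · by_cases c2 : i ≤ 8 * a + 4 + c
        · obtain ⟨j, rfl⟩ : ∃ j, i = j + c := ⟨i - c, by omega⟩
          refine tm_cube 1 le_rfl j ?_
          intro p h1 h2
          have d1 := h (p + c) (by omega) (by omega)
          rwa [s2 p (by omega) (by omega), show p + c + 1 = p + 1 + c by ring,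
            s2 (p + 1) (by omega) (by omega)] at d1
        · omega
    · have hm2 : 2 ≤ m := by omega
      have e1 : (c + 3) * m = c * m + 3 * m := by ring
      have e2 : c * 2 ≤ c * m := Nat.mul_le_mul_left c hm2
      obtain ⟨j, hj1, hj2, hj3, hj4⟩ : ∃ j, 1 ≤ j ∧ i ≤ j + c ∧ j + 3 * m ≤ 8 * a + 7 ∧
          j + c + 3 * m ≤ i + (c + 3) * m := by
        by_cases c1 : i ≤ c
        · exact ⟨1, le_rfl, by omega, by omega, by omega⟩
        · exact ⟨i - c, by omega, by omega, by omega, by omega⟩
      refine tm_cube m hm j ?_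
      intro p h1 h2
      have d1 := h (p + c) (by omega) (by omega)
      rwa [s2 p (by omega) (by omega), show p + c + m = p + m + c by ring,
        s2 (p + m) (by omega) (by omega)] at d1


/-- number of descents before coordinate `q`. -/
def cnt (L : ℕ) (t : ℕ → ℕ) (q : ℕ) : ℕ := 2 * (q / L) + min (q % L - t (q / L)) 2

def LT' (L : ℕ) (t : ℕ → ℕ) (a b : ℕ) : Prop :=
  cnt L t b < cnt L t a ∨ (cnt L t a = cnt L t b ∧ a < b)

lemma cnt_at (L : ℕ) (t : ℕ → ℕ) (i j : ℕ) (hj : j < L) :
    cnt L t (i * L + j) = 2 * i + min (j - t i) 2 := by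
  have hL : 0 < L := by omega
  have h1 : (i * L + j) / L = i := by
    rw [add_comm, Nat.add_mul_div_right _ _ hL, Nat.div_eq_of_lt hj, zero_add]
  have h2 : (i * L + j) % L = j := by
    rw [add_comm, Nat.add_mul_mod_self_right, Nat.mod_eq_of_lt hj]
  unfold cnt; rw [h1, h2]

lemma asc_at (L : ℕ) (hL : 5 ≤ L) (t : ℕ → ℕ) (ht : ∀ i, t i ≤ 1) (i j : ℕ) (hj : j < L) :
    LT' L t (i * L + j) (i * L + j + 1) ↔ ¬ (j = t i ∨ j = t i + 1) := by
  have a1 := cnt_at L t i j hj
  have a3 := ht i
  unfold LT'
  by_cases h : j + 1 < L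
  · have a2 := cnt_at L t i (j + 1) h
    rw [← add_assoc] at a2
    omega
  · have a2 := cnt_at L t (i + 1) 0 (by omega)
    have e : (i + 1) * L + 0 = i * L + j + 1 := by rw [add_mul]; omega
    rw [e] at a2
    omega

lemma decomp (L : ℕ) (hL : 0 < L) (q : ℕ) : ∃ i j, j < L ∧ q = i * L + j :=
  ⟨q / L, q % L, Nat.mod_lt _ hL, by rw [mul_comm]; exact (Nat.div_add_mod q L).symm⟩

lemma uniq (L x y u v : ℕ) (hu : u < L) (hv : v < L) (h : x * L + u = y * L + v) :
    x = y ∧ u = v := by
  have h1 : x = y := by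
    rcases lt_trichotomy x y with c | c | c
    · have := Nat.mul_le_mul_right L (show x + 1 ≤ y from c)
      rw [add_mul] at this; omega
    · exact c
    · have := Nat.mul_le_mul_right L (show y + 1 ≤ x from c)
      rw [add_mul] at this; omega
  subst h1; omega

lemma mulL (L a b : ℕ) (h : a < b) : a * L + L ≤ b * L := by
  have := Nat.mul_le_mul_right L (show a + 1 ≤ b from h)
  rw [add_mul] at this; omega

lemma no_pow (k T : ℕ) (hk : 3 ≤ k) (t : ℕ → ℕ) (C : Ctl k T t) (L : ℕ) (hL : L + 1 = 2 * k)
    (S l : ℕ) (hS : 2 ≤ S) (hl : 2 ≤ l) (hT : S + k * l ≤ T * L + 2)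
    (H : ∀ r < k, ∀ o, o + 1 < l →
      (LT' L t (S + o) (S + o + 1) ↔ LT' L t (S + r * l + o) (S + r * l + o + 1))) : False := by
  have A := asc_at L (by omega) t C.le
  have hle := C.le
  obtain ⟨i0, ρ, hρ, rfl⟩ := decomp L (by omega) S
  by_cases hl2 : l = 2
  · subst hl2
    have H0 : ∀ r < k, (LT' L t (i0 * L + ρ) (i0 * L + ρ + 1) ↔
        LT' L t (i0 * L + ρ + r * 2) (i0 * L + ρ + r * 2 + 1)) := fun r hr => H r hr 0 (by omega)
    have a0 := A i0 ρ hρ
    have b0 := hle i0
    have b1 := hle (i0 + 1)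
    have e : (i0 + 1) * L = i0 * L + L := by ring
    by_cases c : LT' L t (i0 * L + ρ) (i0 * L + ρ + 1)
    · have key : ∀ r < k, ∀ i j, j < L → i0 * L + ρ + r * 2 = i * L + j →
          ¬ (j = t i ∨ j = t i + 1) := by
        intro r hr i j hj he
        have := (H0 r hr).1 c
        rw [he] at this
        exact (A i j hj).1 this
      by_cases c0 : ρ = 0
      · have := key 1 (by omega) i0 2 (by omega) (by omega)
        have := a0.1 c
        omega
      · by_cases c1 : (L - ρ) % 2 = 1
        · have := key ((L - ρ + 1) / 2) (by have := a0.1 c; omega) (i0 + 1) 1 (by omega) (by omega)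
          omega
        · have h1 := key ((L - ρ) / 2) (by omega) (i0 + 1) 0 (by omega) (by omega)
          have h2 := key ((L - ρ) / 2 + 1) (by have := a0.1 c; omega) (i0 + 1) 2 (by omega)
            (by omega)
          omega
    · have d : ρ = t i0 ∨ ρ = t i0 + 1 := by
        by_contra d; exact c (a0.2 d)
      have h1 := (H0 1 (by omega)).2
      have h2 := A i0 (ρ + 2) (by omega)
      rw [show i0 * L + (ρ + 2) = i0 * L + ρ + 1 * 2 by ring] at h2
      exact c (h1 (h2.2 (by omega)))
  have hl3 : 3 ≤ l := by omega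
  have hkl : k * 3 ≤ k * l := Nat.mul_le_mul_left k hl3
  set S := i0 * L + ρ with hSdef
  -- step 1 : `L` divides `l`
  have DD : ∀ q, ¬ LT' L t q (q + 1) → ¬ LT' L t (q + 1) (q + 1 + 1) →
      ∃ i, q + 1 = i * L + t i + 1 := by
    intro q h1 h2
    obtain ⟨i, j, hj, rfl⟩ := decomp L (by omega) q
    have a1 := A i j hj
    have b := hle i
    have d : j = t i ∨ j = t i + 1 := by by_contra d; exact h1 (a1.2 d)
    have a2 := A i (j + 1) (by omega)
    rw [← add_assoc] at a2
    have d2 : j + 1 = t i ∨ j + 1 = t i + 1 := by by_contra d; exact h2 (a2.2 d)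
    exact ⟨i, by omega⟩
  have AD : ∀ q, LT' L t q (q + 1) → ¬ LT' L t (q + 1) (q + 1 + 1) →
      ∃ i, q + 1 = i * L + t i + 0 := by
    intro q h1 h2
    obtain ⟨i, j, hj, he⟩ := decomp L (by omega) (q + 1)
    have a1 := A i j hj
    have b := hle i
    rw [← he] at a1
    have d : j = t i ∨ j = t i + 1 := by by_contra d; exact h2 (a1.2 d)
    rcases d with d | d
    · exact ⟨i, by omega⟩
    · have a2 := A i (t i) (by omega)
      have e : i * L + t i = q := by omega
      rw [e] at a2
      exact absurd (Or.inl rfl) (a2.1 h1)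
  have DA : ∀ q, ¬ LT' L t q (q + 1) → LT' L t (q + 1) (q + 1 + 1) →
      ∃ i, q + 1 = i * L + t i + 2 := by
    intro q h1 h2
    obtain ⟨i, j, hj, rfl⟩ := decomp L (by omega) q
    have a1 := A i j hj
    have b := hle i
    have d : j = t i ∨ j = t i + 1 := by by_contra d; exact h1 (a1.2 d)
    have a2 := A i (j + 1) (by omega)
    rw [← add_assoc] at a2
    have d2 := a2.1 h2
    exact ⟨i, by omega⟩
  have H2 : ∀ r < k, ∀ r' < k, ∀ o, o + 1 < l →
      (LT' L t (S + r * l + o) (S + r * l + o + 1) ↔
        LT' L t (S + r' * l + o) (S + r' * l + o + 1)) :=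
    fun r hr r' hr' o ho => (H r hr o ho).symm.trans (H r' hr' o ho)
  obtain ⟨o, c, hoc⟩ : ∃ o c, ∀ r < k, ∃ i, S + r * l + o + 1 = i * L + t i + c := by
    have e : (i0 + 1) * L = i0 * L + L := by ring
    have b := hle (i0 + 1)
    have p0 := A (i0 + 1) (t (i0 + 1)) (by omega)
    have p1 := A (i0 + 1) (t (i0 + 1) + 1) (by omega)
    have p2 := A (i0 + 1) (t (i0 + 1) + 2) (by omega)
    have q0 : ¬ LT' L t ((i0 + 1) * L + t (i0 + 1)) ((i0 + 1) * L + t (i0 + 1) + 1) :=
      fun h => p0.1 h (Or.inl rfl)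
    have q1 : ¬ LT' L t ((i0 + 1) * L + t (i0 + 1) + 1) ((i0 + 1) * L + t (i0 + 1) + 1 + 1) :=
      fun h => p1.1 h (Or.inr rfl)
    have q2 : LT' L t ((i0 + 1) * L + t (i0 + 1) + 1 + 1)
        ((i0 + 1) * L + t (i0 + 1) + 1 + 1 + 1) := p2.2 (by omega)
    obtain ⟨r, o, ho, he⟩ := decomp l (by omega) ((i0 + 1) * L + t (i0 + 1) - S)
    have he' : (i0 + 1) * L + t (i0 + 1) = S + r * l + o := by omega
    rw [he'] at q0 q1 q2
    have hr : r < k := by
      by_contra hr
      have := Nat.mul_le_mul_right l (show k ≤ r by omega)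
      omega
    by_cases c1 : o + 2 < l
    · refine ⟨o, 1, fun r' hr' => DD _ ?_ ?_⟩
      · exact fun h => q0 ((H2 r hr r' hr' o (by omega)).2 h)
      · exact fun h => q1 ((H2 r hr r' hr' (o + 1) (by omega)).2 h)
    · by_cases c2 : o + 2 = l
      · obtain ⟨o', rfl⟩ : ∃ o', o = o' + 1 := ⟨o - 1, by omega⟩
        have q3 : LT' L t (S + r * l + o') (S + r * l + o' + 1) := by
          by_contra q3
          obtain ⟨i, hi⟩ := DD _ q3 q0
          have bi := hle i
          have := uniq L i (i0 + 1) (t i + 1) (t (i0 + 1)) (by omega) (by omega) (by omega)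
          obtain ⟨rfl, h⟩ := this
          omega
        refine ⟨o', 0, fun r' hr' => AD _ ?_ ?_⟩
        · exact (H2 r hr r' hr' o' (by omega)).1 q3
        · exact fun h => q0 ((H2 r hr r' hr' (o' + 1) (by omega)).2 h)
      · have e2 : S + r * l + o + 1 = S + (r + 1) * l + 0 := by rw [add_mul]; omega
        have hr1 : r + 1 < k := by
          by_contra hr1
          have := Nat.mul_le_mul_right l (show k ≤ r + 1 by omega)
          omega
        rw [e2] at q1 q2
        refine ⟨0, 2, fun r' hr' => DA _ ?_ ?_⟩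
        · exact fun h => q1 ((H2 (r + 1) hr1 r' hr' 0 (by omega)).2 h)
        · exact (H2 (r + 1) hr1 r' hr' 1 (by omega)).1 q2
  obtain ⟨m, hm⟩ : ∃ m, l = m * L := by
    obtain ⟨x0, h0⟩ := hoc 0 (by omega)
    obtain ⟨x1, h1⟩ := hoc 1 (by omega)
    obtain ⟨x2, h2⟩ := hoc 2 (by omega)
    have b0 := hle x0
    have b1 := hle x1
    have b2 := hle x2
    have := uniq L (x0 + x2) (2 * x1) (t x0 + t x2) (2 * t x1) (by omega) (by omega)
      (by rw [add_mul, mul_assoc]; omega)
    refine ⟨x1 - x0, ?_⟩
    rw [Nat.sub_mul]; omega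
  have hm1 : 1 ≤ m := by
    rcases Nat.eq_zero_or_pos m with rfl | h
    · simp at hm; omega
    · exact h
  -- step 2 : periodicity of the control sequence
  have per : ∀ i j, j + 1 < L → j + 1 ≠ ρ → S ≤ i * L + j → (i + m) * L + j + 2 ≤ S + k * l →
      (¬ (j = t i ∨ j = t i + 1) ↔ ¬ (j = t (i + m) ∨ j = t (i + m) + 1)) := by
    intro i j hj hjρ h1 h2
    have e : (i + m) * L = i * L + l := by rw [hm]; ring
    obtain ⟨r, o, ho, he⟩ := decomp l (by omega) (i * L + j - S)
    have he' : i * L + j = S + r * l + o := by omega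
    have e2 : (r + 1) * l = r * l + l := by ring
    have hr1 : r + 1 < k := by
      by_contra hr1
      have := Nat.mul_le_mul_right l (show k ≤ r + 1 by omega)
      omega
    have ho2 : o + 1 < l := by
      by_contra ho2
      have e3 : (i0 + (r + 1) * m) * L = i0 * L + (r + 1) * l := by rw [hm]; ring
      have := uniq L i (i0 + (r + 1) * m) (j + 1) ρ hj hρ (by omega)
      omega
    have a1 := A i j (by omega)
    have a2 := A (i + m) j (by omega)
    have a3 := H2 r (by omega) (r + 1) hr1 o ho2
    rw [he'] at a1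
    rw [show (i + m) * L + j = S + (r + 1) * l + o by omega] at a2
    exact a1.symm.trans (a3.trans a2)
  have e4 : (i0 + k * m) * L = i0 * L + k * l := by rw [hm]; ring
  have per0 : ρ ≠ 1 → ∀ i, S ≤ i * L → (i + m) * L + 2 ≤ S + k * l → t i = t (i + m) := by
    intro h i h1 h2
    have := per i 0 (by omega) (by omega) (by omega) (by omega)
    have := hle i
    have := hle (i + m)
    omega
  have per2 : ρ ≠ 3 → ∀ i, S ≤ i * L + 2 → (i + m) * L + 4 ≤ S + k * l → t i = t (i + m) := by
    intro h i h1 h2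
    have := per i 2 (by omega) (by omega) (by omega) (by omega)
    have := hle i
    have := hle (i + m)
    omega
  have hT1 : i0 + k * m ≤ T := by
    by_contra h
    have := mulL L T (i0 + k * m) (by omega)
    omega
  by_cases c3 : 3 ≤ ρ
  · refine C.pow m hm1 (i0 + 1) (by omega) ?_ ?_
    · by_contra h
      have := Nat.mul_le_mul_right L (show T ≤ i0 + k * m by omega)
      omega
    · intro p h1 h2
      have := mulL L i0 p h1
      have := Nat.mul_le_mul_right L (show p + m ≤ i0 + k * m by omega)
      exact per0 (by omega) p (by omega) (by omega)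
  · by_cases c0 : i0 = 0
    · subst c0
      have hρ2 : ρ = 2 := by omega
      have P : ∀ p, 1 ≤ p → p + m ≤ k * m → t p = t (p + m) := by
        intro p h1 h2
        have := mulL L 0 p h1
        have := Nat.mul_le_mul_right L (show p + m ≤ 0 + k * m by omega)
        exact per0 (by omega) p (by omega) (by omega)
      by_cases c4 : 1 + k * m ≤ T
      · exact C.pow m hm1 1 le_rfl c4 (fun p h1 h2 => P p h1 (by omega))
      · have hkm : 1 * m < k * m := by
          have := mulL m 1 k (by omega); omega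
        have P0 : t 0 = t (0 + m) := by
          have := mulL L (0 + m) (0 + k * m) (by omega)
          exact per2 (by omega) 0 (by omega) (by omega)
        have ind : ∀ r, r + 1 ≤ k → t ((r + 1) * m) = t 0 := by
          intro r
          induction r with
          | zero => intro _; rw [P0]; simp
          | succ r ih =>
            intro hr
            have e5 : (r + 1 + 1) * m = (r + 1) * m + m := by ring
            have e6 := Nat.mul_le_mul_right m hr
            have e7 := Nat.mul_le_mul_right m (show 1 ≤ r + 1 by omega)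
            rw [e5, ← P _ (by omega) (by omega)]
            exact ih (by omega)
        have f1 := ind (k - 1) (by omega)
        rw [show k - 1 + 1 = k by omega] at f1
        have f2 := C.left 0 (by omega)
        have f3 := C.right (k * m) (by omega)
        omega
    · refine C.pow m hm1 i0 (by omega) hT1 ?_
      intro p h1 h2
      have := Nat.mul_le_mul_right L h1
      have := mulL L (p + m) (i0 + k * m) h2
      exact per2 (by omega) p (by omega) (by omega)


lemma val_lt {n : ℕ} (σ : Equiv.Perm (Fin n)) (p : ℕ) (h : p < n) :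
    val σ p = (σ ⟨p, h⟩ : ℕ) := by simp [val, h]

lemma val_inj {n : ℕ} (σ : Equiv.Perm (Fin n)) (p q : ℕ) (hp : p < n) (hq : q < n)
    (h : val σ p = val σ q) : p = q := by
  rw [val_lt σ p hp, val_lt σ q hq] at h
  have := σ.injective (Fin.ext h)
  simpa using this

lemma exists_perm (L : ℕ) (t : ℕ → ℕ) (n : ℕ) : ∃ σ : Equiv.Perm (Fin n),
    ∀ p q : Fin n, σ p < σ q ↔ LT' L t (p + 2) (q + 2) := by
  let f : Fin n → ℤ ×ₗ ℕ := fun p => toLex (-(cnt L t (p + 2) : ℤ), (p : ℕ))
  have hinj : Function.Injective f := by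
    intro p q h
    have := congrArg (fun x => (ofLex x).2) h
    exact Fin.ext (by simpa [f] using this)
  have hsm : StrictMono (f ∘ Tuple.sort f) :=
    (Tuple.monotone_sort f).strictMono_of_injective (hinj.comp (Tuple.sort f).injective)
  refine ⟨(Tuple.sort f).symm, fun p q => ?_⟩
  rw [← hsm.lt_iff_lt]
  simp only [Function.comp, Equiv.apply_symm_apply, f, Prod.Lex.toLex_lt_toLex, LT']
  omega

lemma pow_of {n : ℕ} (k : ℕ) (τ : Equiv.Perm (Fin n)) (s l : ℕ) (R : ℕ → ℕ → Prop) (hl : 2 ≤ l)
    (hs : s + k * l ≤ n)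
    (h : ∀ r < k, ∀ i < l, ∀ j < l, (val τ (s + r * l + i) < val τ (s + r * l + j) ↔ R i j)) :
    HasPow k τ :=
  ⟨s, l, hl, hs, fun r hr r' hr' i hi j hj => (h r hr i hi j hj).trans (h r' hr' i hi j hj).symm⟩

lemma pow_two {n : ℕ} (k : ℕ) (τ : Equiv.Perm (Fin n)) (s : ℕ) (hs : s + k * 2 ≤ n)
    (h : ∀ r < k, val τ (s + r * 2) < val τ (s + r * 2 + 1)) : HasPow k τ := by
  refine pow_of k τ s 2 (fun i j => i < j) le_rfl hs ?_
  intro r hr i hi j hj
  have := h r hr
  have hi' : i = 0 ∨ i = 1 := by omega
  have hj' : j = 0 ∨ j = 1 := by omega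
  rcases hi' with rfl | rfl <;> rcases hj' with rfl | rfl <;> (try simp only [add_zero]) <;> omega

lemma left_ok (k T : ℕ) (hk : 3 ≤ k) (t : ℕ → ℕ) (C : Ctl k T t) (L : ℕ) (hL : L + 1 = 2 * k)
    (τ : Equiv.Perm (Fin (T * L + 1)))
    (hv : ∀ p q, p < T * L → q < T * L →
      (val τ (p + 1) < val τ (q + 1) ↔ LT' L t (p + 2) (q + 2))) : HasPow k τ := by
  have A := asc_at L (by omega) t C.le
  have hkT := Nat.mul_le_mul_right L C.big
  have hk3 := Nat.mul_le_mul_right L hk
  have hv' : ∀ p q, 1 ≤ p → 1 ≤ q → p ≤ T * L → q ≤ T * L →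
      (val τ p < val τ q ↔ LT' L t (p + 1) (q + 1)) := by
    intro p q h1 h2 h3 h4
    obtain ⟨p, rfl⟩ : ∃ p', p = p' + 1 := ⟨p - 1, by omega⟩
    obtain ⟨q, rfl⟩ : ∃ q', q = q' + 1 := ⟨q - 1, by omega⟩
    exact hv p q (by omega) (by omega)
  have hne : val τ 0 ≠ val τ 1 := fun h => by
    have := val_inj τ 0 1 (by omega) (by omega) h
    omega
  by_cases c : val τ 0 < val τ 1
  · refine pow_two k τ 0 (by omega) ?_
    intro r hr
    rcases Nat.eq_zero_or_pos r with rfl | h0
    · simpa using c
    · rw [hv' _ _ (by omega) (by omega) (by omega) (by omega)]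
      by_cases c1 : r + 1 < k
      · have := A 0 (r * 2 + 1) (by omega)
        have t0 := C.left 0 (by omega)
        rw [show 0 * L + (r * 2 + 1) = 0 + r * 2 + 1 by omega] at this
        exact this.2 (by omega)
      · have := A 1 0 (by omega)
        have t1 := C.left 1 (by omega)
        rw [show 1 * L + 0 = 0 + r * 2 + 1 by omega] at this
        exact this.2 (by omega)
  · have cn : ∀ r < k, ∀ i < L, cnt L t (0 + r * L + i + 1) = 2 * r + min i 2 := by
      intro r hr i hi
      have tr := C.left r hr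
      by_cases c1 : i + 1 < L
      · have := cnt_at L t r (i + 1) c1
        rw [show r * L + (i + 1) = 0 + r * L + i + 1 by omega] at this
        omega
      · have := cnt_at L t (r + 1) 0 (by omega)
        rw [show (r + 1) * L + 0 = 0 + r * L + i + 1 by rw [add_mul]; omega] at this
        omega
    refine pow_of k τ 0 L (fun i j => min j 2 < min i 2 ∨ (min i 2 = min j 2 ∧ i < j))
      (by omega) (by omega) ?_
    intro r hr i hi j hj
    have b := mulL L r k hr
    have main : ∀ i < L, ∀ j < L, 1 ≤ r * L + i → 1 ≤ r * L + j →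
        (val τ (0 + r * L + i) < val τ (0 + r * L + j) ↔
          (min j 2 < min i 2 ∨ (min i 2 = min j 2 ∧ i < j))) := by
      intro i hi j hj h1 h2
      rw [hv' _ _ (by omega) (by omega) (by omega) (by omega)]
      have := cn r hr i hi
      have := cn r hr j hj
      unfold LT'
      omega
    rcases Nat.eq_zero_or_pos r with rfl | h0
    · have top : ∀ j < L, 1 ≤ j → val τ (0 + 0 * L + j) < val τ (0 + 0 * L + 0) := by
        intro j hj h1
        have m1 := main j hj 1 (by omega) (by omega) (by omega)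
        simp only [zero_mul, zero_add, add_zero] at m1 ⊢
        by_cases j1 : j = 1
        · subst j1; omega
        · have := m1.2 (by omega)
          omega
      rcases Nat.eq_zero_or_pos i with rfl | hi0 <;> rcases Nat.eq_zero_or_pos j with rfl | hj0
      · omega
      · have := top j hj hj0
        omega
      · have := top i hi hi0
        omega
      · exact main i hi j hj (by omega) (by omega)
    · have := mulL L 0 r h0
      exact main i hi j hj (by omega) (by omega)

lemma right_ok (k T : ℕ) (hk : 3 ≤ k) (t : ℕ → ℕ) (C : Ctl k T t) (L : ℕ) (hL : L + 1 = 2 * k)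
    (τ : Equiv.Perm (Fin (T * L + 1)))
    (hv : ∀ p q, p < T * L → q < T * L →
      (val τ p < val τ q ↔ LT' L t (p + 2) (q + 2))) : HasPow k τ := by
  have A := asc_at L (by omega) t C.le
  obtain ⟨U, rfl⟩ : ∃ U, T = U + k := ⟨T - k, by have := C.big; omega⟩
  have e : (U + k) * L = U * L + k * L := by ring
  have hk3 := Nat.mul_le_mul_right L hk
  have hne : val τ ((U + k) * L - 1) ≠ val τ ((U + k) * L) := fun h => by
    have := val_inj τ _ _ (by omega) (by omega) h
    omega
  by_cases c : val τ ((U + k) * L - 1) < val τ ((U + k) * L)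
  · refine pow_two k τ ((U + k) * L + 1 - k * 2) (by omega) ?_
    intro r hr
    by_cases c1 : r + 1 < k
    · rw [hv _ _ (by omega) (by omega)]
      have tz := C.right (U + k - 1) (by omega)
      have e2 : (U + k - 1) * L + L = (U + k) * L := by
        rw [← add_one_mul, show U + k - 1 + 1 = U + k by omega]
      have := A (U + k - 1) (r * 2 + 2) (by omega)
      rw [show (U + k - 1) * L + (r * 2 + 2) = (U + k) * L + 1 - k * 2 + r * 2 + 2 by omega]
        at this
      exact this.2 (by omega)
    · rw [show (U + k) * L + 1 - k * 2 + r * 2 = (U + k) * L - 1 by omega,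
        show (U + k) * L - 1 + 1 = (U + k) * L by omega]
      exact c
  · have cn : ∀ r < k, ∀ i < L,
        cnt L t (U * L + 1 + r * L + i + 2) = 2 * (U + r) + 2 + (i - (L - 3)) := by
      intro r hr i hi
      have tr := C.right (U + r + 1) (by omega)
      have tl := C.le (U + r)
      by_cases c1 : i + 3 < L
      · have := cnt_at L t (U + r) (i + 3) c1
        rw [show (U + r) * L + (i + 3) = U * L + 1 + r * L + i + 2 by rw [add_mul]; omega] at this
        omega
      · have := cnt_at L t (U + r + 1) (i + 3 - L) (by omega)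
        rw [show (U + r + 1) * L + (i + 3 - L) = U * L + 1 + r * L + i + 2 by
          rw [add_mul, add_mul]; omega] at this
        omega
    refine pow_of k τ (U * L + 1) L
      (fun i j => j - (L - 3) < i - (L - 3) ∨ (i - (L - 3) = j - (L - 3) ∧ i < j))
      (by omega) (by omega) ?_
    intro r hr i hi j hj
    have b := mulL L r k hr
    have main : ∀ i < L, ∀ j < L, r * L + i + 1 < k * L → r * L + j + 1 < k * L →
        (val τ (U * L + 1 + r * L + i) < val τ (U * L + 1 + r * L + j) ↔
          (j - (L - 3) < i - (L - 3) ∨ (i - (L - 3) = j - (L - 3) ∧ i < j))) := by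
      intro i hi j hj h1 h2
      rw [hv _ _ (by omega) (by omega)]
      have := cn r hr i hi
      have := cn r hr j hj
      unfold LT'
      omega
    by_cases c1 : r + 1 < k
    · have := mulL L (r + 1) k c1
      rw [add_mul] at this
      exact main i hi j hj (by omega) (by omega)
    · have e3 : r * L + L = k * L := by rw [← add_one_mul, show r + 1 = k by omega]
      have bot : ∀ j, j + 1 < L →
          val τ (U * L + 1 + r * L + (L - 1)) < val τ (U * L + 1 + r * L + j) := by
        intro j hj
        have m1 := main (L - 2) (by omega) j (by omega) (by omega) (by omega)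
        rw [show U * L + 1 + r * L + (L - 2) = (U + k) * L - 1 by omega] at m1
        rw [show U * L + 1 + r * L + (L - 1) = (U + k) * L by omega]
        by_cases j1 : j = L - 2
        · rw [show U * L + 1 + r * L + j = (U + k) * L - 1 by omega]; omega
        · have := m1.2 (by omega)
          omega
      by_cases hi0 : i = L - 1 <;> by_cases hj0 : j = L - 1
      · subst hi0; subst hj0; omega
      · subst hi0
        have := bot j (by omega)
        omega
      · subst hj0
        have := bot i (by omega)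
        omega
      · exact main i hi j hj (by omega) (by omega)

/-- For every `k ≥ 3` there are arbitrarily long permutations that are bicrucial with respect to
`k`-th powers. -/
theorem result : ∀ k : ℕ, 3 ≤ k → ∀ N : ℕ, ∃ n : ℕ, N ≤ n ∧
    ∃ σ : Equiv.Perm (Fin n), Bicrucial k σ := by
  intro k hk N
  obtain ⟨T, t, hN, C⟩ := exists_ctl k hk N
  obtain ⟨L, hL⟩ : ∃ L, L + 1 = 2 * k := ⟨2 * k - 1, by omega⟩
  obtain ⟨σ, hσ⟩ := exists_perm L t (T * L)
  have hTL : T * 1 ≤ T * L := Nat.mul_le_mul_left T (by omega)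
  have hv : ∀ p q, p < T * L → q < T * L →
      (val σ p < val σ q ↔ LT' L t (p + 2) (q + 2)) := by
    intro p q hp hq
    rw [val_lt σ p hp, val_lt σ q hq]
    exact hσ ⟨p, hp⟩ ⟨q, hq⟩
  refine ⟨T * L, by omega, σ, ?_, ?_, ?_⟩
  · rintro ⟨s, l, hl, hs, h⟩
    refine no_pow k T hk t C L hL (s + 2) l (by omega) hl (by omega) ?_
    intro r hr o ho
    have h1 := h 0 (by omega) r hr o (by omega) (o + 1) ho
    have b0 := mulL l 0 k (by omega)
    have b := mulL l r k hr
    rw [hv _ _ (by omega) (by omega), hv _ _ (by omega) (by omega)] at h1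
    rw [show s + 2 + o = s + 0 * l + o + 2 by omega,
      show s + 0 * l + o + 2 + 1 = s + 0 * l + (o + 1) + 2 by omega,
      show s + 2 + r * l + o = s + r * l + o + 2 by omega,
      show s + r * l + o + 2 + 1 = s + r * l + (o + 1) + 2 by omega]
    exact h1
  · intro τ hτ
    refine left_ok k T hk t C L hL τ ?_
    intro p q hp hq
    rw [val_lt τ (p + 1) (by omega), val_lt τ (q + 1) (by omega)]
    exact (hτ ⟨p, hp⟩ ⟨q, hq⟩).trans (hσ ⟨p, hp⟩ ⟨q, hq⟩)
  · intro τ hτ
    refine right_ok k T hk t C L hL τ ?_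
    intro p q hp hq
    rw [val_lt τ p (by omega), val_lt τ q (by omega)]
    exact (hτ ⟨p, hp⟩ ⟨q, hq⟩).trans (hσ ⟨p, hp⟩ ⟨q, hq⟩)

end Pool.Agent.Results.MP_8f6629_co.AllK
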